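import Pool.Agent.W102.GI.Defs

/-!
# Project GI, part ZY: pairs (involution, compatible function) and symmetric permutations
-/

set_option autoImplicit false

namespace Pool.Agent.W880.GI

open Finset Pool.Agent.W102.GI

/-- positions: `(i, false)` is `i + 1`, `(i, true)` is `-(i + 1)` -/
def E (n : ℕ) : Fin n × Bool ≃ Fin (2 * n) where
  toFun x := if x.2 then ⟨n - 1 - (x.1 : ℕ), by omega⟩ else ⟨n + (x.1 : ℕ), by omega⟩
  invFun p := if h : (p : ℕ) < n then (⟨n - 1 - (p : ℕ), by omega⟩, true)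
    else (⟨(p : ℕ) - n, by omega⟩, false)
  left_inv := by
    rintro ⟨i, b⟩
    cases b
    · have h : ¬ (n + (i : ℕ) < n) := by omega
      simp [h]
    · have h : n - 1 - (i : ℕ) < n := by omega
      simp only [if_true, h, dif_pos, Prod.mk.injEq, and_true]
      apply Fin.ext
      show n - 1 - (n - 1 - (i : ℕ)) = i
      omega
  right_inv := by
    intro p
    by_cases h : (p : ℕ) < n
    · simp only [h, dif_pos, if_true]
      apply Fin.ext
      show n - 1 - (n - 1 - (p : ℕ)) = p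
      omega
    · simp only [h, dif_neg, not_false_iff, Bool.false_eq_true, if_false]
      apply Fin.ext
      show n + ((p : ℕ) - n) = p
      omega

/-- the opposite position -/
def bar {n : ℕ} (x : Fin n × Bool) : Fin n × Bool := (x.1, !x.2)

/-- signed position -/
def svx {n : ℕ} (x : Fin n × Bool) : ℤ := (if x.2 then (-1 : ℤ) else 1) * (((x.1 : ℕ) : ℤ) + 1)

lemma E_val_f {n : ℕ} (i : Fin n) : ((E n (i, false) : Fin (2 * n)) : ℕ) = n + i := rfl
lemma E_val_t {n : ℕ} (i : Fin n) : ((E n (i, true) : Fin (2 * n)) : ℕ) = n - 1 - i := rfl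

lemma rev_E {n : ℕ} (x : Fin n × Bool) : Fin.rev (E n x) = E n (bar x) := by
  rcases x with ⟨i, b⟩
  apply Fin.ext
  rw [Fin.val_rev]
  cases b
  · show 2 * n - ((E n (i, false) : ℕ) + 1) = (E n (i, true) : ℕ)
    rw [E_val_f, E_val_t]
    omega
  · show 2 * n - ((E n (i, true) : ℕ) + 1) = (E n (i, false) : ℕ)
    rw [E_val_f, E_val_t]
    omega

lemma svx_f {n : ℕ} (i : Fin n) : svx (i, false) = (i : ℤ) + 1 := by
  unfold svx
  simp

lemma svx_t {n : ℕ} (i : Fin n) : svx (i, true) = -((i : ℤ) + 1) := by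
  unfold svx
  simp

lemma svx_bar {n : ℕ} (x : Fin n × Bool) : svx (bar x) = - svx x := by
  rcases x with ⟨i, b⟩
  cases b
  · show svx (i, true) = - svx (i, false)
    rw [svx_f, svx_t]
  · show svx (i, false) = - svx (i, true)
    rw [svx_f, svx_t]
    ring

lemma E_lt {n : ℕ} (x y : Fin n × Bool) : E n x < E n y ↔ svx x < svx y := by
  rcases x with ⟨i, b⟩
  rcases y with ⟨j, c⟩
  rw [Fin.lt_def]
  cases b <;> cases c
  · rw [E_val_f, E_val_f, svx_f, svx_f]
    omega
  · rw [E_val_f, E_val_t, svx_f, svx_t]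
    omega
  · rw [E_val_f, E_val_t, svx_f, svx_t]
    omega
  · rw [E_val_t, E_val_t, svx_t, svx_t]
    omega

/-- the signed permutation on the positions -/
def tw {n : ℕ} (w : SP n) : Equiv.Perm (Fin n × Bool) where
  toFun x := (w.1 x.1, xor x.2 (w.2 x.1))
  invFun x := (w.1.symm x.1, xor x.2 (w.2 (w.1.symm x.1)))
  left_inv := by
    rintro ⟨i, b⟩
    simp
  right_inv := by
    rintro ⟨i, b⟩
    simp

/-- the block function on the positions -/
def nu {n r : ℕ} (l : Fin n → Fin (r + 1)) (x : Fin n × Bool) : Fin (2 * r + 1) :=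
  if x.2 then ⟨r - (l x.1 : ℕ), by omega⟩ else ⟨r + (l x.1 : ℕ), by omega⟩

lemma nu_f {n r : ℕ} (l : Fin n → Fin (r + 1)) (i : Fin n) :
    ((nu l (i, false) : Fin (2 * r + 1)) : ℕ) = r + l i := rfl
lemma nu_t {n r : ℕ} (l : Fin n → Fin (r + 1)) (i : Fin n) :
    ((nu l (i, true) : Fin (2 * r + 1)) : ℕ) = r - l i := rfl

lemma nu_bar {n r : ℕ} (l : Fin n → Fin (r + 1)) (x : Fin n × Bool) :
    nu l (bar x) = Fin.rev (nu l x) := by
  rcases x with ⟨i, b⟩
  apply Fin.ext
  rw [Fin.val_rev]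
  cases b
  · show ((nu l (i, true) : Fin (2 * r + 1)) : ℕ) =
      2 * r + 1 - (((nu l (i, false) : Fin (2 * r + 1)) : ℕ) + 1)
    rw [nu_f, nu_t]
    omega
  · show ((nu l (i, false) : Fin (2 * r + 1)) : ℕ) =
      2 * r + 1 - (((nu l (i, true) : Fin (2 * r + 1)) : ℕ) + 1)
    rw [nu_f, nu_t]
    have := (l i).2
    omega

lemma tw_bar {n : ℕ} (w : SP n) (x : Fin n × Bool) : tw w (bar x) = bar (tw w x) := by
  rcases x with ⟨i, b⟩
  show (w.1 i, xor (!b) (w.2 i)) = (w.1 i, !(xor b (w.2 i)))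
  cases b <;> simp

lemma sv_eq {n : ℕ} (w : SP n) (i : Fin n) : sv w i = svx (tw w (i, false)) := by
  show sv w i = svx (w.1 i, xor false (w.2 i))
  rw [Bool.false_xor]
  rfl

lemma sv_inj {n : ℕ} (w : SP n) (i j : Fin n) (h : sv w i = sv w j) : i = j := by
  rw [sv_eq, sv_eq] at h
  have h1 : ¬ E n (tw w (i, false)) < E n (tw w (j, false)) := by
    rw [E_lt]
    omega
  have h2 : ¬ E n (tw w (j, false)) < E n (tw w (i, false)) := by
    rw [E_lt]
    omega
  have h3 : E n (tw w (i, false)) = E n (tw w (j, false)) :=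
    le_antisymm (not_lt.mp h2) (not_lt.mp h1)
  have h4 := (tw w).injective ((E n).injective h3)
  exact congrArg Prod.fst h4

lemma compat_mono {n r : ℕ} (w : SP n) (l : Fin n → Fin (r + 1)) (h : Compat w l) (d : ℕ) :
    ∀ i j : Fin n, (j : ℕ) = i + d → (l i : ℕ) ≤ l j ∧
      (0 < d → (l i : ℕ) = l j → sv w i < sv w j) := by
  induction d with
  | zero =>
    intro i j hij
    have : i = j := Fin.ext (by omega)
    subst this
    exact ⟨le_rfl, fun h => absurd h (lt_irrefl 0)⟩
  | succ d ih =>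
    intro i j hij
    obtain ⟨j', hj'⟩ : ∃ j' : Fin n, (j' : ℕ) = i + d := ⟨⟨i + d, by omega⟩, rfl⟩
    obtain ⟨a1, a2⟩ := ih i j' hj'
    obtain ⟨b1, b2⟩ := h.2 j' j (by omega)
    refine ⟨a1.trans b1, fun _ heq => ?_⟩
    have h1 : (l i : ℕ) = l j' := by omega
    have h2 : ¬ sv w j < sv w j' := by
      intro h3
      have := b2 h3
      omega
    have h3 : sv w j' ≠ sv w j := by
      intro h4
      have := sv_inj w _ _ h4
      subst this
      omega
    rcases Nat.eq_zero_or_pos d with h5 | h5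
    · have : i = j' := Fin.ext (by omega)
      subst this
      omega
    · have := a2 h5 h1
      omega

lemma compat_pos {n r : ℕ} (w : SP n) (l : Fin n → Fin (r + 1)) (h : Compat w l) (i : Fin n)
    (hi : (l i : ℕ) = 0) : 0 < sv w i := by
  obtain ⟨i0, hi0⟩ : ∃ i0 : Fin n, (i0 : ℕ) = 0 := ⟨⟨0, Fin.pos i⟩, rfl⟩
  obtain ⟨a1, a2⟩ := compat_mono w l h i i0 i (by omega)
  have h1 : (l i0 : ℕ) = 0 := by omega
  have h2 : w.2 i0 = false := by
    rw [← Bool.not_eq_true]
    intro h3
    have := h.1 i0 hi0 h3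
    omega
  have h3 : 0 < sv w i0 := by
    unfold sv
    rw [h2]
    simp only [Bool.false_eq_true, if_false, one_mul]
    positivity
  rcases Nat.eq_zero_or_pos (i : ℕ) with h5 | h5
  · have : i = i0 := Fin.ext (by omega)
    rw [this]
    exact h3
  · have := a2 h5 (by omega)
    omega

/-- the permutation of the positions -/
def sig {n : ℕ} (w : SP n) : Equiv.Perm (Fin (2 * n)) := (E n).permCongr (tw w)

/-- the block map -/
def mu {n r : ℕ} (l : Fin n → Fin (r + 1)) (p : Fin (2 * n)) : Fin (2 * r + 1) :=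
  nu l ((E n).symm p)

lemma sig_E {n : ℕ} (w : SP n) (x : Fin n × Bool) : sig w (E n x) = E n (tw w x) := by
  unfold sig
  rw [Equiv.permCongr_apply, Equiv.symm_apply_apply]

lemma mu_E {n r : ℕ} (l : Fin n → Fin (r + 1)) (x : Fin n × Bool) : mu l (E n x) = nu l x := by
  unfold mu
  rw [Equiv.symm_apply_apply]

lemma E_le {n : ℕ} (x y : Fin n × Bool) : E n x ≤ E n y ↔ svx x ≤ svx y := by
  rw [← not_lt, E_lt, not_lt]

lemma maps {n r : ℕ} (w : SP n) (l : Fin n → Fin (r + 1)) (hw : w ∈ invs n) (h : Compat w l) :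
    (sig w, mu l) ∈ Y n r := by
  unfold invs at hw
  rw [mem_filter] at hw
  unfold Y
  rw [mem_filter]
  refine ⟨mem_univ _, ?_, ?_, ?_, ?_, ?_⟩
  · intro p
    obtain ⟨⟨i, b⟩, rfl⟩ := (E n).surjective p
    show sig w (sig w _) = _
    rw [sig_E, sig_E]
    congr 1
    show (w.1 (w.1 i), xor (xor b (w.2 i)) (w.2 (w.1 i))) = (i, b)
    rw [(hw.2 i).1, (hw.2 i).2, Bool.xor_assoc, Bool.xor_self, Bool.xor_false]
  · intro p
    obtain ⟨x, rfl⟩ := (E n).surjective p
    show sig w _ = Fin.rev (sig w _)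
    rw [rev_E, sig_E, sig_E, rev_E, tw_bar]
  · intro p p' hpp
    obtain ⟨⟨i, b⟩, rfl⟩ := (E n).surjective p
    obtain ⟨⟨j, c⟩, rfl⟩ := (E n).surjective p'
    show mu l _ ≤ mu l _
    rw [mu_E, mu_E]
    rw [E_le] at hpp
    rw [Fin.le_def]
    cases b <;> cases c
    · rw [svx_f, svx_f] at hpp
      rw [nu_f, nu_f]
      have := (compat_mono w l h ((j : ℕ) - i) i j (by omega)).1
      omega
    · rw [svx_f, svx_t] at hpp
      omega
    · rw [nu_f, nu_t]
      omega
    · rw [svx_t, svx_t] at hpp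
      rw [nu_t, nu_t]
      have := (compat_mono w l h ((i : ℕ) - j) j i (by omega)).1
      omega
  · intro p
    obtain ⟨x, rfl⟩ := (E n).surjective p
    show mu l _ = Fin.rev (mu l _)
    rw [rev_E, mu_E, mu_E, nu_bar]
  · intro p p' hpp heq
    obtain ⟨⟨i, b⟩, rfl⟩ := (E n).surjective p
    obtain ⟨⟨j, c⟩, rfl⟩ := (E n).surjective p'
    have heq' : mu l (E n (i, b)) = mu l (E n (j, c)) := heq
    show sig w _ < sig w _
    rw [sig_E, sig_E, E_lt]
    rw [mu_E, mu_E] at heq'
    have hv := congrArg Fin.val heq'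
    rw [E_lt] at hpp
    have hli := (l i).2
    have hlj := (l j).2
    cases b <;> cases c
    · rw [svx_f, svx_f] at hpp
      rw [nu_f, nu_f] at hv
      rw [← sv_eq, ← sv_eq]
      exact (compat_mono w l h ((j : ℕ) - i) i j (by omega)).2 (by omega) (by omega)
    · rw [svx_f, svx_t] at hpp
      omega
    · rw [nu_f, nu_t] at hv
      have h1 : svx (tw w (i, true)) = - sv w i := by
        have : ((i, true) : Fin n × Bool) = bar (i, false) := rfl
        rw [this, tw_bar, svx_bar, sv_eq]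
      rw [h1, ← sv_eq]
      have h2 := compat_pos w l h i (by omega)
      have h3 := compat_pos w l h j (by omega)
      omega
    · rw [svx_t, svx_t] at hpp
      rw [nu_t, nu_t] at hv
      have h1 : ∀ i : Fin n, svx (tw w (i, true)) = - sv w i := by
        intro i
        have : ((i, true) : Fin n × Bool) = bar (i, false) := rfl
        rw [this, tw_bar, svx_bar, sv_eq]
      rw [h1, h1]
      have := (compat_mono w l h ((i : ℕ) - j) j i (by omega)).2 (by omega) (by omega)
      omega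

lemma inj {n r : ℕ} (w w' : SP n) (l l' : Fin n → Fin (r + 1)) (h1 : sig w = sig w')
    (h2 : mu l = mu l') : w = w' ∧ l = l' := by
  constructor
  · have h3 : ∀ i, tw w (i, false) = tw w' (i, false) := by
      intro i
      apply (E n).injective
      rw [← sig_E, ← sig_E, h1]
    have h4 : ∀ i, w.1 i = w'.1 i := fun i => congrArg Prod.fst (h3 i)
    have h5 : ∀ i, w.2 i = w'.2 i := by
      intro i
      have := congrArg Prod.snd (h3 i)
      have h6 : xor false (w.2 i) = xor false (w'.2 i) := this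
      rwa [Bool.false_xor, Bool.false_xor] at h6
    exact Prod.ext (Equiv.ext h4) (funext h5)
  · funext i
    have h3 : nu l (i, false) = nu l' (i, false) := by
      rw [← mu_E, ← mu_E, h2]
    have h4 := congrArg Fin.val h3
    rw [nu_f, nu_f] at h4
    exact Fin.ext (by omega)

lemma surj {n r : ℕ} (p : Equiv.Perm (Fin (2 * n)) × (Fin (2 * n) → Fin (2 * r + 1)))
    (hp : p ∈ Y n r) : ∃ (w : SP n) (l : Fin n → Fin (r + 1)), w ∈ invs n ∧ Compat w l ∧
      sig w = p.1 ∧ mu l = p.2 := by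
  unfold Y at hp
  rw [mem_filter] at hp
  obtain ⟨-, y1, y2, y3, y4, y5⟩ := hp
  obtain ⟨σ, μ⟩ := p
  dsimp only at y1 y2 y3 y4 y5 ⊢
  obtain ⟨t, ht⟩ : ∃ t : Fin n × Bool → Fin n × Bool, ∀ x, E n (t x) = σ (E n x) :=
    ⟨fun x => (E n).symm (σ (E n x)), fun x => Equiv.apply_symm_apply _ _⟩
  have ht2 : ∀ x, t (t x) = x := by
    intro x
    apply (E n).injective
    rw [ht, ht, y1]
  have htb : ∀ x, t (bar x) = bar (t x) := by
    intro x
    apply (E n).injective
    rw [ht, ← rev_E, y2, ← ht, rev_E]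
  have hinv : ∀ i, (t ((t (i, false)).1, false)).1 = i ∧
      (t ((t (i, false)).1, false)).2 = (t (i, false)).2 := by
    intro i
    have h1 := ht2 (i, false)
    rcases h2 : t (i, false) with ⟨j, b⟩
    rw [h2] at h1
    cases b
    · show (t (j, false)).1 = i ∧ (t (j, false)).2 = false
      rw [h1]
      exact ⟨rfl, rfl⟩
    · show (t (j, false)).1 = i ∧ (t (j, false)).2 = true
      have h3 : t (j, false) = bar (t (j, true)) := by
        rw [← htb]
        rfl
      rw [h3, h1]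
      exact ⟨rfl, rfl⟩
  obtain ⟨w, hw⟩ : ∃ w : SP n, ∀ i, (w.1 i, w.2 i) = t (i, false) :=
    ⟨(Function.Involutive.toPerm (fun i => (t (i, false)).1) (fun i => (hinv i).1),
      fun i => (t (i, false)).2), fun i => rfl⟩
  have htw : ∀ x, tw w x = t x := by
    rintro ⟨i, b⟩
    have h1 : tw w (i, false) = t (i, false) := by
      rw [← hw i]
      show (w.1 i, xor false (w.2 i)) = _
      rw [Bool.false_xor]
    cases b
    · exact h1
    · have : ((i, true) : Fin n × Bool) = bar (i, false) := rfl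
      rw [this, tw_bar, htb, h1]
  have hge : ∀ i : Fin n, r ≤ (μ (E n (i, false)) : ℕ) := by
    intro i
    have h1 : E n (i, true) ≤ E n (i, false) := by
      rw [E_le, svx_f, svx_t]
      omega
    have h2 := y3 _ _ h1
    have h3 : μ (E n (i, true)) = Fin.rev (μ (E n (i, false))) := by
      rw [← y4, rev_E]
      rfl
    rw [h3, Fin.le_def, Fin.val_rev] at h2
    omega
  obtain ⟨l, hl⟩ : ∃ l : Fin n → Fin (r + 1), ∀ i, (l i : ℕ) = (μ (E n (i, false)) : ℕ) - r :=
    ⟨fun i => ⟨(μ (E n (i, false)) : ℕ) - r, by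
      have := (μ (E n (i, false))).2
      omega⟩, fun i => rfl⟩
  have hnu : ∀ x, nu l x = μ (E n x) := by
    rintro ⟨i, b⟩
    have h1 : nu l (i, false) = μ (E n (i, false)) := by
      apply Fin.ext
      rw [nu_f, hl]
      have := hge i
      omega
    cases b
    · exact h1
    · have h2 : ((i, true) : Fin n × Bool) = bar (i, false) := rfl
      rw [h2, nu_bar, h1, ← rev_E, y4]
  refine ⟨w, l, ?_, ⟨?_, ?_⟩, ?_, ?_⟩
  · unfold invs
    rw [mem_filter]
    refine ⟨mem_univ _, fun i => ?_⟩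
    have h1 : w.1 i = (t (i, false)).1 := congrArg Prod.fst (hw i)
    have h2 : w.2 i = (t (i, false)).2 := congrArg Prod.snd (hw i)
    have h3 : ∀ j, w.1 j = (t (j, false)).1 := fun j => congrArg Prod.fst (hw j)
    have h4 : ∀ j, w.2 j = (t (j, false)).2 := fun j => congrArg Prod.snd (hw j)
    rw [h3 (w.1 i), h4 (w.1 i), h1, h2]
    exact hinv i
  · intro j hj hwj
    by_contra hlj
    have hlj' : (l j : ℕ) = 0 := by omega
    have h1 : E n (j, true) < E n (j, false) := by
      rw [E_lt, svx_f, svx_t]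
      omega
    have h2 : μ (E n (j, true)) = μ (E n (j, false)) := by
      rw [← hnu, ← hnu]
      apply Fin.ext
      rw [nu_f, nu_t]
      omega
    have h3 := y5 _ _ h1 h2
    rw [← ht, ← ht, E_lt] at h3
    have h4 : t (j, true) = bar (t (j, false)) := by
      rw [← htb]
      rfl
    rw [h4, svx_bar, ← hw j, hwj, svx_t] at h3
    omega
  · intro i j hij
    have h1 : E n (i, false) < E n (j, false) := by
      rw [E_lt, svx_f, svx_f]
      omega
    have h2 := y3 _ _ h1.le
    rw [← hnu, ← hnu, Fin.le_def, nu_f, nu_f] at h2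
    refine ⟨by omega, fun hsv => ?_⟩
    by_contra hlt
    have h3 : μ (E n (i, false)) = μ (E n (j, false)) := by
      rw [← hnu, ← hnu]
      apply Fin.ext
      rw [nu_f, nu_f]
      omega
    have h4 := y5 _ _ h1 h3
    rw [← ht, ← ht, E_lt, ← htw, ← htw, ← sv_eq, ← sv_eq] at h4
    omega
  · apply Equiv.ext
    intro q
    obtain ⟨x, rfl⟩ := (E n).surjective q
    rw [sig_E, htw, ht]
  · funext q
    obtain ⟨x, rfl⟩ := (E n).surjective q
    rw [mu_E, hnu]

theorem ZY : Pool.Agent.W102.GI.ZY := by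
  intro n r
  rw [← card_sigma]
  refine card_bij (fun p _ => (sig p.1, mu p.2)) ?_ ?_ ?_
  · rintro ⟨w, l⟩ hp
    rw [mem_sigma, mem_filter] at hp
    exact maps w l hp.1 hp.2.2
  · rintro ⟨w, l⟩ _ ⟨w', l'⟩ _ heq
    obtain ⟨h1, h2⟩ := inj w w' l l' (congrArg Prod.fst heq) (congrArg Prod.snd heq)
    subst h1
    subst h2
    rfl
  · intro p hp
    obtain ⟨w, l, h1, h2, h3, h4⟩ := surj p hp
    refine ⟨⟨w, l⟩, ?_, Prod.ext h3 h4⟩
    rw [mem_sigma, mem_filter]
    exact ⟨h1, mem_univ _, h2⟩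

end Pool.Agent.W880.GI
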